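import Mathlib

set_option autoImplicit false

namespace Pool.Agent.Results.MP_81d707_al.NoBasis

universe u

/-- The monoid `L`: `none` is the identity, `some true` and `some false` are left zeros. -/
def L : Type := Option Bool

instance : Mul L := ⟨fun a b => match a with
  | none => b
  | some s => some s⟩

/-- A quasi-identity in `n` variables: a list of premises and a conclusion. -/
def QI : Type := Σ n : ℕ, List (FreeSemigroup (Fin n) × FreeSemigroup (Fin n)) ×
  (FreeSemigroup (Fin n) × FreeSemigroup (Fin n))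

/-- The semigroup `S` satisfies the quasi-identity `q`. -/
def Sat (S : Type u) [Semigroup S] (q : QI) : Prop :=
  ∀ v : Fin q.1 → S, (∀ p ∈ q.2.1, FreeSemigroup.lift v p.1 = FreeSemigroup.lift v p.2) →
    FreeSemigroup.lift v q.2.2.1 = FreeSemigroup.lift v q.2.2.2

/-- Some finite set of quasi-identities of `S` implies every quasi-identity of `S`. -/
def FinitelyBased (S : Type u) [Semigroup S] : Prop :=
  ∃ A : Set QI, A.Finite ∧ (∀ q ∈ A, Sat S q) ∧
    ∀ q, Sat S q → ∀ (T : Type) [Semigroup T], (∀ p ∈ A, Sat T p) → Sat T q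

def Key (S : Type u) [Semigroup S] : Prop :=
  ∀ k : ℕ, ∃ (T : Type) (_ : Semigroup T) (_ : Finite T) (a b : T), a ≠ b ∧
    (∀ ψ : T → S, (∀ x y, ψ (x * y) = ψ x * ψ y) → ψ a = ψ b) ∧
    ∀ n ≤ k, ∀ v : Fin n → T, ∃ C : Set T, (∀ i, v i ∈ C) ∧ (∀ x ∈ C, ∀ y ∈ C, x * y ∈ C) ∧
      ∀ x y, x ≠ y → ∃ ψ : T → S, (∀ x ∈ C, ∀ y ∈ C, ψ (x * y) = ψ x * ψ y) ∧ ψ x ≠ ψ y

theorem Key.nfb {S : Type u} [Semigroup S] (h : Key S) : ¬ FinitelyBased S := by
  rintro ⟨A, hA, h1, h2⟩
  obtain ⟨k, hk⟩ := (hA.image fun q => q.1).bddAbove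
  obtain ⟨T, _, _, a, b, hab, h3, h4⟩ := h k
  obtain ⟨n, ⟨e⟩⟩ := Finite.exists_equiv_fin T
  let q : QI := ⟨n, (Finset.univ : Finset (Fin n × Fin n)).toList.map fun p =>
    (FreeSemigroup.of p.1 * FreeSemigroup.of p.2, FreeSemigroup.of (e (e.symm p.1 * e.symm p.2))),
    FreeSemigroup.of (e a), FreeSemigroup.of (e b)⟩
  have hq : Sat S q := fun v hv => h3 (v ∘ e) fun x y => by
    have := hv _ (List.mem_map.2 ⟨(e x, e y), by simp, rfl⟩)
    simpa using this.symm
  refine hab (by
    have := h2 q hq T (fun p hp v hv => ?_) e.symm fun p hp => by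
      obtain ⟨r, -, rfl⟩ := List.mem_map.1 hp
      simp
    · simpa [q] using this
    · obtain ⟨C, c1, c2, c3⟩ := h4 p.1 (hk ⟨p, hp, rfl⟩) v
      by_contra hn
      obtain ⟨ψ, d1, d2⟩ := c3 _ _ hn
      have : ∀ w, FreeSemigroup.lift v w ∈ C ∧
          ψ (FreeSemigroup.lift v w) = FreeSemigroup.lift (ψ ∘ v) w := by
        intro w
        induction w with
        | ih1 x => exact ⟨c1 x, rfl⟩
        | ih2 x w h5 h6 =>
          rw [map_mul, map_mul]
          exact ⟨c2 _ h5.1 _ h6.1, by rw [d1 _ h5.1 _ h6.1, h5.2, h6.2]⟩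
      refine d2 ?_
      rw [(this _).2, (this _).2]
      exact h1 p hp _ fun r hr => by rw [← (this _).2, ← (this _).2, hv r hr])

theorem Key.of_op {S : Type u} [Semigroup S] (h : Key Sᵐᵒᵖ) : Key S := by
  intro k
  obtain ⟨T, _, _, a, b, hab, h3, h4⟩ := h k
  refine ⟨Tᵐᵒᵖ, inferInstance, Finite.of_equiv _ MulOpposite.opEquiv, .op a, .op b,
    fun e => hab (MulOpposite.op_injective e), fun ψ hψ => MulOpposite.op_injective
      (h3 (fun x => .op (ψ (.op x))) fun x y => by rw [MulOpposite.op_mul, hψ]; rfl),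
    fun n hn v => ?_⟩
  obtain ⟨C, c1, c2, c3⟩ := h4 n hn fun i => (v i).unop
  refine ⟨{x | x.unop ∈ C}, c1, fun x hx y hy => c2 _ hy _ hx, fun x y hxy => ?_⟩
  obtain ⟨ψ, d1, d2⟩ := c3 x.unop y.unop fun e => hxy (MulOpposite.unop_injective e)
  exact ⟨fun x => (ψ x.unop).unop, fun x hx y hy => congrArg MulOpposite.unop (d1 _ hy _ hx),
    fun e => d2 (MulOpposite.unop_injective e)⟩

section B
variable (N m : ℕ)

abbrev V := Bool ⊕ Fin N × Fin (2 * m - 1)
abbrev Ed := (Fin N × Fin m) × Bool
def B := V N m ⊕ Ed N m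

variable {N m}

def vert (i : Fin N) (t : ℕ) : V N m :=
  if t = 0 then .inl false else if h : t - 1 < 2 * m - 1 then .inr (i, ⟨t - 1, h⟩) else .inl true

def chi (k : Fin N × Fin m) : V N m → Bool
  | .inl _ => true
  | .inr p => decide ¬ (p.1 = k.1 ∧ k.2.val ≤ p.2.val ∧ p.2.val < k.2.val + m)

theorem chi_vert (k : Fin N × Fin m) (i : Fin N) (t : ℕ) :
    chi k (vert i t) = true ↔ ¬ (i = k.1 ∧ k.2.val < t ∧ t ≤ k.2.val + m) := by
  have := k.2.2
  unfold vert
  split_ifs with h1 h2
  · simp [chi, h1]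
  · simp only [chi, decide_eq_true_eq]
    exact not_congr (and_congr Iff.rfl (by omega))
  · simp only [chi, true_iff]
    omega

def en (e : Ed N m) (s : Bool) : V N m :=
  vert e.1.1 (if e.2 then (if s then e.1.2.val + m + 1 else e.1.2.val + m)
    else (if s then e.1.2.val else e.1.2.val + 1))

theorem chi_en (e : Ed N m) (s : Bool) : chi e.1 (en e s) = s := by
  obtain ⟨⟨i, j⟩, b⟩ := e
  have := j.2
  rw [Bool.eq_iff_iff]
  cases b <;> cases s <;> simp [en, chi_vert] <;> omega

theorem chi_en' (k : Fin N × Fin m) (e : Ed N m) (h : e.1 ≠ k) (s : Bool) :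
    chi k (en e s) = chi k (en e true) := by
  obtain ⟨⟨i, j⟩, b⟩ := e
  obtain ⟨i', j'⟩ := k
  have := j.2
  have := j'.2
  rw [Bool.eq_iff_iff]
  by_cases h1 : i = i'
  · have h2 : j.val ≠ j'.val := fun e => h (Prod.ext h1 (Fin.ext e))
    cases b <;> cases s <;> simp [en, chi_vert, h1] <;> omega
  · simp [en, chi_vert, h1]

def phi (k : Fin N × Fin m) : B N m → L
  | .inl v => some (chi k v)
  | .inr e => if e.1 = k then none else some (chi k (en e true))

instance : Mul (B N m) := ⟨fun x y => match x with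
  | .inl v => .inl v
  | .inr e => match phi e.1 y with
    | none => .inr e
    | some s => .inl (en e s)⟩

theorem mul_none {e : Ed N m} {y : B N m} (h : phi e.1 y = none) :
    (show B N m from .inr e) * y = .inr e := by
  show (match phi e.1 y with
    | none => _
    | some s => _) = _
  rw [h]

theorem mul_some {e : Ed N m} {y : B N m} {s : Bool} (h : phi e.1 y = some s) :
    (show B N m from .inr e) * y = .inl (en e s) := by
  show (match phi e.1 y with
    | none => _
    | some s => _) = _
  rw [h]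

theorem phi_mul (k : Fin N × Fin m) (x y : B N m) : phi k (x * y) = phi k x * phi k y := by
  rcases x with v | e
  · rfl
  · rcases h : phi e.1 y with _ | s
    · rw [mul_none h]
      by_cases h1 : e.1 = k
      · subst h1
        rw [h]; simp only [phi, if_true]; rfl
      · simp only [phi, if_neg h1]; rfl
    · rw [mul_some h]
      by_cases h1 : e.1 = k
      · subst h1
        rw [h]; simp only [phi, if_true, chi_en]; rfl
      · simp only [phi, if_neg h1, chi_en' k e h1 s]; rfl

instance : Semigroup (B N m) where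
  mul_assoc x y z := by
    rcases x with v | e
    · rfl
    · have := phi_mul e.1 y z
      rcases h : phi e.1 y with _ | s
      · rw [h] at this
        rw [mul_none h]
        rcases h' : phi e.1 z with _ | s
        · rw [mul_none h', mul_none (this.trans h')]
        · rw [mul_some h', mul_some (this.trans h')]
      · rw [h] at this
        rw [mul_some h, mul_some this]
        rfl

theorem collapse {S : Type u} [Semigroup S] [Finite S] (hN : Nat.card S < N) (hm : 0 < m)
    (ψ : B N m → S) (h : ∀ x y, ψ (x * y) = ψ x * ψ y) :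
    ψ (.inl (.inl false)) = ψ (.inl (.inl true)) := by
  by_contra hn
  have : ∀ i : Fin N, ∃ e : Ed N m, e.1.1 = i ∧ ψ (.inl (en e true)) ≠ ψ (.inl (en e false)) := by
    intro i
    by_contra hc
    push Not at hc
    have : ∀ t ≤ 2 * m, ψ (.inl (.inl false)) = ψ (.inl (vert i t)) := by
      intro t ht
      induction t with
      | zero => rfl
      | succ t ih =>
        rw [ih (by omega)]
        by_cases h1 : t < m
        · exact hc ((i, ⟨t, h1⟩), false) rfl
        · have := hc ((i, ⟨t - m, by omega⟩), true) rfl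
          simp only [en, if_true, Bool.false_eq_true, if_false,
            Nat.sub_add_cancel (not_lt.1 h1)] at this
          exact this.symm
    have h2 := this _ le_rfl
    rw [vert, if_neg (by omega), dif_neg (lt_irrefl _)] at h2
    exact hn h2
  choose e he1 he2 using this
  obtain ⟨i, i', h1, h2⟩ : ∃ i i', i ≠ i' ∧ ψ (.inr (e i)) = ψ (.inr (e i')) := by
    haveI := Fintype.ofFinite S
    exact Fintype.exists_ne_map_eq_of_card_lt _ (by simpa using hN)
  have h3 : (e i').1 ≠ (e i).1 := fun k => h1 (by rw [← he1 i, ← k, he1])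
  have h4 := h (.inr (e i)) (.inr (e i'))
  rw [mul_some (y := .inr (e i')) (if_neg h3), ← h2, ← h,
    mul_none (y := .inr (e i)) (if_pos rfl)] at h4
  have h5 : ∀ s, ψ (.inl (en (e i) s)) = ψ (.inr (e i)) := fun s => by
    have := h (.inr (e i)) (.inl (en (e i) s))
    rw [mul_some (y := .inl (en (e i) s)) (congrArg some (chi_en _ _)), ← h4, ← h] at this
    exact this.trans h4
  exact he2 i ((h5 _).trans (h5 _).symm)

def sd (j : Fin N → Fin m) : B N m → Bool
  | .inl (.inl s) => !s
  | .inl (.inr p) => decide (p.2.val < (j p.1).val)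
  | .inr e => decide (e.2 = false ∧ e.1.2.val < (j e.1.1).val)

theorem sd_vert (j : Fin N → Fin m) (i : Fin N) (t : ℕ) :
    sd j (.inl (vert i t)) = decide (t ≤ (j i).val) := by
  have := (j i).2
  unfold vert
  split_ifs with h1 h2
  · simp [sd, h1]
  · simp only [sd, decide_eq_decide]
    omega
  · simp only [sd]
    exact (decide_eq_false (by omega)).symm

theorem sep (hm : 2 ≤ m) (j : Fin N → Fin m) (x y : B N m) (h : x ≠ y) :
    (∃ k, phi k x ≠ phi k y) ∨ sd j x ≠ sd j y := by
  have one : ∀ p : Fin N × Fin (2 * m - 1), ∃ r : Fin m, chi (p.1, r) (.inr p) = false := by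
    intro p
    have := p.2.2
    by_cases h1 : p.2.val < m
    · exact ⟨⟨_, h1⟩, by simp [chi]; omega⟩
    · exact ⟨⟨m - 1, by omega⟩, by simp [chi]; omega⟩
  have two : ∀ (i : Fin N) (r r' : Fin (2 * m - 1)), r.val < r'.val →
      ∃ k, chi k (.inr (i, r)) ≠ chi k (.inr (i, r')) := by
    intro i r r' hr
    have := r'.2
    by_cases h1 : r'.val < m
    · exact ⟨(i, ⟨_, h1⟩), by rw [Ne, Bool.eq_iff_iff]; simp [chi]; omega⟩
    · exact ⟨(i, ⟨r.val + 1 - m, by omega⟩), by rw [Ne, Bool.eq_iff_iff]; simp [chi]; omega⟩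
  have inj : ∀ {k : Fin N × Fin m} {v w : V N m}, chi k v ≠ chi k w →
      phi k (.inl v) ≠ phi k (.inl w) := fun h e => h (Option.some.inj e)
  rcases x with (s | p) | e <;> rcases y with (s' | p') | e'
  · right
    cases s <;> cases s' <;> simp_all [sd]
  · obtain ⟨r, hr⟩ := one p'
    exact Or.inl ⟨_, inj (by rw [hr]; simp [chi])⟩
  · exact Or.inl ⟨e'.1, by simp [phi]⟩
  · obtain ⟨r, hr⟩ := one p
    exact Or.inl ⟨_, inj (by rw [hr]; simp [chi])⟩
  · left
    obtain ⟨i, r⟩ := p
    obtain ⟨i', r'⟩ := p'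
    by_cases h1 : i' = i
    · subst h1
      rcases lt_trichotomy r.val r'.val with k | k | k
      · exact (two _ _ _ k).imp fun _ => inj
      · exact absurd (by rw [Fin.ext k]) h
      · exact (two _ _ _ k).imp fun _ a => inj a.symm
    · obtain ⟨q, hq⟩ := one (i, r)
      exact ⟨_, inj (by rw [hq]; simp [chi, h1])⟩
  · exact Or.inl ⟨e'.1, by simp [phi]⟩
  · exact Or.inl ⟨e.1, by simp [phi]⟩
  · exact Or.inl ⟨e.1, by simp [phi]⟩
  · left
    by_cases h1 : e'.1 = e.1
    · obtain ⟨⟨i, r⟩, b⟩ := e
      obtain ⟨_, b'⟩ := e'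
      obtain rfl := h1
      obtain ⟨r', hr⟩ : ∃ r' : Fin m, r.val ≠ r'.val := by
        by_cases h2 : r.val = 0
        exacts [⟨⟨1, by omega⟩, by simp [h2]⟩, ⟨⟨0, by omega⟩, h2⟩]
      have h3 : ((i, r) : Fin N × Fin m) ≠ (i, r') := fun k => hr (congrArg (·.2.val) k)
      have := r.2
      have := r'.2
      refine ⟨(i, r'), ?_⟩
      simp only [phi, if_neg h3]
      refine fun k => absurd (Option.some.inj k) ?_
      rw [Bool.eq_iff_iff]
      cases b <;> cases b' <;> simp [en, chi_vert] <;> first | omega | exact absurd rfl h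
    · exact ⟨e.1, by simp [phi, h1]⟩

end B

theorem key {S : Type u} [Semigroup S] [Finite S] (g : L →ₙ* S) (hg : Function.Injective g) :
    Key S := by
  intro k
  refine ⟨B (Nat.card S + 1) (k + 2), inferInstance, inferInstanceAs (Finite (_ ⊕ _)),
    .inl (.inl false), .inl (.inl true), fun e => by simpa using Sum.inl.inj e,
    collapse (Nat.lt_succ_self _) (by omega), fun n hn v => ?_⟩
  have : ∀ i : Fin (Nat.card S + 1), ∃ j : Fin (k + 2), ∀ l, v l ≠ .inr ((i, j), false) := by
    intro i
    by_contra hc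
    push Not at hc
    choose f hf using hc
    have := Fintype.card_le_of_injective f fun a b e => by
      have := (hf a).symm.trans (e ▸ hf b)
      simpa using Sum.inr.inj this
    simp at this
    omega
  choose j hj using this
  refine ⟨{x | ∀ i, x ≠ .inr ((i, j i), false)}, fun l i => hj i l, fun x hx y _ => ?_,
    fun x y hxy => ?_⟩
  · rcases x with w | e
    · exact hx
    · rcases h : phi e.1 y with _ | s
      · rwa [mul_none h]
      · rw [mul_some h]
        exact fun i => Sum.inl_ne_inr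
  · rcases sep (by omega) j x y hxy with ⟨c, hc⟩ | hc
    · exact ⟨g ∘ phi c, fun x _ y _ => by simp [phi_mul], fun e => hc (hg e)⟩
    · refine ⟨fun x => g (some (sd j x)), fun x hx y _ => ?_,
        fun e => hc (Option.some.inj (hg e))⟩
      rw [← map_mul]
      show _ = g (some (sd j x))
      rcases x with w | ⟨⟨i, r⟩, b⟩
      · rfl
      · rcases h : phi (i, r) y with _ | s
        · rw [mul_none h]
        · rw [mul_some h]
          show g (some (sd j (.inl (en _ _)))) = _
          rw [en, sd_vert]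
          have := (j i).2
          congr 2
          cases b
          · have : r.val ≠ (j i).val := fun e => hx i (by rw [Fin.ext e])
            cases s <;> simp [sd] <;> omega
          · cases s <;> simp [sd] <;> omega

/-- A finite semigroup containing `L` or its dual `R` has no finite basis of quasi-identities. -/
theorem result (S : Type u) [Semigroup S] [Finite S]
    (h : (∃ g : L →ₙ* S, Function.Injective g) ∨ ∃ g : Lᵐᵒᵖ →ₙ* S, Function.Injective g) :
    ¬ FinitelyBased S := by
  rcases h with ⟨g, hg⟩ | ⟨g, hg⟩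
  · exact (key g hg).nfb
  · haveI : Finite Sᵐᵒᵖ := Finite.of_equiv _ MulOpposite.opEquiv
    exact (Key.of_op (key ⟨fun x => .op (g (.op x)), fun x y => by
      rw [MulOpposite.op_mul, map_mul]; rfl⟩ fun x y e =>
        MulOpposite.op_injective (hg (MulOpposite.op_injective e)))).nfb

end Pool.Agent.Results.MP_81d707_al.NoBasis
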